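import Mathlib
import Pool.Agent.H635.DM.Far

/-!
# MP_65c32d_lc: `♢` gives `2 ^ ℵ₁` minimal Aronszajn lines, pairwise without common uncountable
suborder, each isomorphic to its reverse, without Countryman or ccc suborders

Sketch. A word is a finite sequence of triples `(β, n, ε)` with `β < ω₁`, `n < ω` and `ε = 1` or
`ε = -1`; it denotes the concatenation of the sequences `ε gⁿ(b_β)`, where `b_β` is a sequence of
nonzero integers of length `ω ^ β` and `g` adds the sign of the entry to all the entries of a
sequence. The sequences denoted by the words form a tree `T` with countable levels, which is closed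
under `s ↦ -s`. For each `x ⊆ ω₁` there is such a sequence of blocks, where `b_β` depends only on
`x ∩ β`. The blocks are chosen, guided by `♢`, in such a way that every uncountable subset of `T_x`
that is closed under initial segments contains all the sequences `t ⌢ gⁿ(v)`, `v ∈ T_x`, for some
`t` and `n`, and similarly for subsets of `T_x × T_y` for `x ≠ y`. The sequences are ordered
lexicographically, where undefined entries count as `0`. So `s ↦ -s` reverses the order, and
mapping `s` to an element that extends `t ⌢ gⁿ(g(s) ⌢ 1)` is an order embedding. The cones above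
the `g(s) ⌢ 1` contain disjoint intervals. The property for pairs shows that for `x ≠ y` there is
no strictly increasing map from an uncountable subset of the line of `x` to the line of `y`.
-/

set_option autoImplicit false

namespace Pool.Agent.Results.MP_65c32d_lc.ManyMinimalLines

open Set

/-- The linear order `ω₁`. -/
abbrev Om : Type := (Ordinal.omega 1 : Ordinal.{0}).ToType

/-- The principle `♢`: there are sets `A α ⊆ α`, for `α < ω₁`, such that for every `X ⊆ ω₁` the set
of all `α` with `X ∩ α = A α` is stationary. -/
def Diamond : Prop :=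
  ∃ A : Om → Set Om, (∀ α, A α ⊆ Iio α) ∧ ∀ X : Set Om, IsStationary {α : Om | X ∩ Iio α = A α}

/-- `L` is an Aronszajn line: it is uncountable, and neither `ω₁` nor its reverse nor an uncountable
set of reals embeds into `L`. -/
def IsAronszajnLine (L : Type) [LinearOrder L] : Prop :=
  Uncountable L ∧ IsEmpty (Om ↪o L) ∧ IsEmpty (Omᵒᵈ ↪o L) ∧
    ∀ S : Set ℝ, ¬ S.Countable → IsEmpty (S ↪o L)

/-- `L` is minimal: it is uncountable, and it embeds into every uncountable suborder of `L`. -/
def IsMinimalLine (L : Type) [LinearOrder L] : Prop :=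
  Uncountable L ∧ ∀ K : Set L, ¬ K.Countable → Nonempty (L ↪o K)

/-- `C` is a Countryman line: it is uncountable, and its square with the coordinatewise partial
order is a union of countably many chains. -/
def IsCountrymanLine (C : Type) [LinearOrder C] : Prop :=
  Uncountable C ∧ ∃ P : ℕ → Set (C × C), (∀ n, IsChain (· ≤ ·) (P n)) ∧ ∀ p, ∃ n, p ∈ P n

/-- Every family of pairwise disjoint nonempty open intervals of `C` is countable. -/
def IsCCCLine (C : Type) [LinearOrder C] : Prop :=
  ∀ I : Set (C × C), (∀ p ∈ I, (Ioo p.1 p.2).Nonempty) →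
    I.PairwiseDisjoint (fun p => Ioo p.1 p.2) → I.Countable

/-- A line which is isomorphic to its reverse does not embed in a Countryman line. -/
theorem not_countryman {L : Type} [LinearOrder L] (hL : Uncountable L) (r : L ≃o Lᵒᵈ) {C : Type}
    [LinearOrder C] (i : L ↪o C) : ¬ IsCountrymanLine C := by
  rintro ⟨-, P, hP, hcov⟩
  choose N hN using hcov
  have hr : ∀ x y : L, x < y → OrderDual.ofDual (r y) < OrderDual.ofDual (r x) := fun x y h =>
    OrderDual.toDual_lt_toDual.1 (r.strictMono h)
  let f : L → C × C := fun x => (i x, i (OrderDual.ofDual (r x)))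
  have key : ∀ x y : L, x < y → N (f x) ≠ N (f y) := by
    intro x y hxy hN2
    have h1 : i x < i y := i.strictMono hxy
    have h2 : i (OrderDual.ofDual (r y)) < i (OrderDual.ofDual (r x)) := i.strictMono (hr x y hxy)
    have h3 : f x ∈ P (N (f x)) := hN _
    have h4 : f y ∈ P (N (f x)) := by
      rw [hN2]
      exact hN _
    rcases (hP _).total h3 h4 with h | h
    · exact absurd h.2 (not_le.2 h2)
    · exact absurd h.1 (not_le.2 h1)
  have hinj : Function.Injective fun x => N (f x) := by
    intro x y hxy
    rcases lt_trichotomy x y with h | h | h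
    · exact absurd hxy (key x y h)
    · exact h
    · exact absurd hxy.symm (key y x h)
  exact not_countable_iff.2 hL hinj.countable

/-- A line with uncountably many strictly disjoint intervals does not embed in a ccc line. -/
theorem not_ccc {L : Type} [LinearOrder L] (hL : Uncountable L)
    (h : ∃ a b c : L → L, (∀ f, a f < b f ∧ b f < c f) ∧ ∀ f g, f < g → c f < a g) {C : Type}
    [LinearOrder C] (i : L ↪o C) : ¬ IsCCCLine C := by
  intro hccc
  obtain ⟨a, b, c, habc, hlt⟩ := h
  have hac : ∀ f, a f < c f := fun f => (habc f).1.trans (habc f).2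
  have h1 := hccc (range fun f => (i (a f), i (c f))) (by
    rintro _ ⟨f, rfl⟩
    exact ⟨i (b f), i.strictMono (habc f).1, i.strictMono (habc f).2⟩) (by
    have key : ∀ f g, f < g → Disjoint (Ioo (i (a f)) (i (c f))) (Ioo (i (a g)) (i (c g))) := by
      intro f g hfg
      rw [Set.disjoint_left]
      rintro z ⟨-, h2⟩ ⟨h3, -⟩
      exact lt_irrefl _ (((h2.trans (i.strictMono (hlt f g hfg))).trans h3))
    rintro _ ⟨f, rfl⟩ _ ⟨g, rfl⟩ hne
    rcases lt_trichotomy f g with h2 | h2 | h2
    · exact key f g h2
    · exact absurd (by rw [h2]) hne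
    · exact (key g f h2).symm)
  have hinj : Function.Injective fun f => (i (a f), i (c f)) := by
    have key : ∀ f g, f < g → a f ≠ a g := fun f g hfg => ((hac f).trans (hlt f g hfg)).ne
    intro f g hfg
    have h2 : a f = a g := i.injective (Prod.ext_iff.1 hfg).1
    rcases lt_trichotomy f g with h3 | h3 | h3
    · exact absurd h2 (key f g h3)
    · exact h3
    · exact absurd h2.symm (key g f h3)
  have h2 : (univ : Set L).Countable := by
    rw [← image_univ] at h1
    exact countable_of_injective_of_countable_image hinj.injOn h1
  exact not_countable_univ h2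

/-- `♢` implies that there is a family, indexed by the subsets of `ω₁`, of minimal Aronszajn lines
which are isomorphic to their reverses, such that no uncountable suborder of a member is a
Countryman line or has the countable chain condition, and such that no uncountable suborder of one
member embeds in another member. -/
theorem result : Diamond → ∃ (L : Set Om → Type) (_ : ∀ x, LinearOrder (L x)),
    (∀ x, IsAronszajnLine (L x) ∧ IsMinimalLine (L x) ∧ Nonempty (L x ≃o (L x)ᵒᵈ) ∧
      ∀ K : Set (L x), ¬ K.Countable → ¬ IsCountrymanLine K ∧ ¬ IsCCCLine K) ∧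
    ∀ x y, x ≠ y → ∀ K : Set (L x), ¬ K.Countable → IsEmpty (K ↪o L y) := by
  intro h
  obtain ⟨G, hG⟩ := H635.DM.guess h
  refine ⟨fun x => H635.DM.Ln (H635.DM.bx G x), fun x => inferInstance, fun x => ?_,
    fun x y hxy K hK => ⟨fun φ => H635.DM.far hG hxy K hK φ φ.strictMono⟩⟩
  have hcap := H635.DM.capture hG x
  have hunc : Uncountable (H635.DM.Ln (H635.DM.bx G x)) := H635.DM.uncountable_Ln
  refine ⟨⟨hunc, ⟨fun φ => ?_⟩, ⟨fun φ => ?_⟩, fun S hS => ⟨fun φ => ?_⟩⟩,
    ⟨hunc, fun K hK => H635.DM.minimal hcap K hK⟩, ⟨H635.DM.revIso⟩, fun K hK => ?_⟩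
  · refine H635.DM.no_omega1 hcap (fun z => (φ z).1) (fun a b hab => φ.injective (Subtype.ext hab))
      (fun z => (φ z).2) (Or.inl fun a b hab => ?_)
    exact φ.monotone hab
  · refine H635.DM.no_omega1 hcap (fun z => (φ (OrderDual.toDual z)).1)
      (fun a b hab => OrderDual.toDual.injective (φ.injective (Subtype.ext hab)))
      (fun z => (φ _).2) (Or.inr fun a b hab => ?_)
    exact φ.monotone (OrderDual.toDual_le_toDual.2 hab)
  · exact H635.DM.no_real (b := H635.DM.bx G x) S hS (fun z => (φ z).1)
      (fun a b hab => φ.strictMono hab) (fun z => (φ z).2)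
  · obtain ⟨i⟩ := H635.DM.minimal hcap K hK
    exact ⟨not_countryman hunc H635.DM.revIso i, not_ccc hunc H635.DM.intervals i⟩

end Pool.Agent.Results.MP_65c32d_lc.ManyMinimalLines
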